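import Pool.Agent.helper13.K93W.Pair

/-!
There is no pair of sets of vertices of `K(9,3)` of size divisible by 6 with a special vertex.
-/

set_option autoImplicit false

open Matrix Finset

namespace Pool.Agent.helper13.K93W

open Pool.Agent.helper3.K93 Pool.Agent.helper98.K93R Pool.Agent.helper20.K93

/-- the sizes of the intersections -/
def NN : Matrix Tri Tri ℤ := Matrix.of fun x y => ((x.1 ∩ y.1).card : ℤ)

theorem card_compl_union (x y : Tri) : ((x.1 ∪ y.1)ᶜ).card = 3 + (x.1 ∩ y.1).card := by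
  have h1 := Finset.card_union_add_card_inter x.1 y.1
  rw [x.2, y.2] at h1
  rw [Finset.card_compl, Fintype.card_fin]
  have h2 : (x.1 ∪ y.1).card ≤ 6 := by omega
  omega

theorem inter_le (x y : Tri) (h : x ≠ y) : (x.1 ∩ y.1).card ≤ 2 := by
  by_contra hlt
  have h1 : (x.1 ∩ y.1).card ≤ 3 := (Finset.card_le_card Finset.inter_subset_left).trans x.2.le
  have h2 : x.1 ∩ y.1 = x.1 := Finset.eq_of_subset_of_card_le Finset.inter_subset_left (by rw [x.2]; omega)
  have h3 : x.1 ∩ y.1 = y.1 := Finset.eq_of_subset_of_card_le Finset.inter_subset_right (by rw [y.2]; omega)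
  exact h (Subtype.ext (h2.symm.trans h3))

theorem A_sq : kneser93.adjMatrix ℤ * kneser93.adjMatrix ℤ =
    (4 : ℤ) • (1 : Matrix Tri Tri ℤ) + (3 : ℤ) • kneser93.adjMatrix ℤ - (2 : ℤ) • JR Tri ℤ +
      (6 : ℤ) • NN := by
  ext x y
  have h1 : (kneser93.adjMatrix ℤ * kneser93.adjMatrix ℤ) x y =
      (((x.1 ∪ y.1)ᶜ).card.choose 3 : ℕ) := by
    rw [← Pool.Agent.helper3.K93.cnt, Matrix.mul_apply]
    simp only [SimpleGraph.adjMatrix_apply, mul_ite, mul_one, mul_zero]
    have : ∀ u : Tri, (if kneser93.Adj u y then (if kneser93.Adj x u then (1 : ℤ) else 0) else 0) =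
        if u.1 ⊆ (x.1 ∪ y.1)ᶜ then 1 else 0 := by
      intro u
      have h2 : u.1 ⊆ (x.1 ∪ y.1)ᶜ ↔ kneser93.Adj u y ∧ kneser93.Adj x u := by
        rw [Finset.subset_compl_iff_disjoint_right, Finset.disjoint_union_right, kneser93_adj,
          kneser93_adj, disjoint_comm (a := x.1)]
        tauto
      simp only [h2]
      by_cases h3 : kneser93.Adj u y <;> by_cases h4 : kneser93.Adj x u <;> simp [h3, h4]
    simp only [this, Finset.sum_boole]
  rw [h1, card_compl_union]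
  simp only [Matrix.add_apply, Matrix.sub_apply, Matrix.smul_apply, smul_eq_mul, JR_apply,
    Matrix.one_apply, SimpleGraph.adjMatrix_apply, NN, Matrix.of_apply, kneser93_adj]
  by_cases hxy : x = y
  · subst hxy
    have h2 : ¬ Disjoint x.1 x.1 := by
      rw [Finset.disjoint_self_iff_empty]
      intro h
      have := x.2
      rw [h] at this
      simp at this
    rw [Finset.inter_self, x.2, if_pos rfl, if_neg h2]
    norm_num [Nat.choose]
  · have h2 := inter_le x y hxy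
    have h3 : Disjoint x.1 y.1 ↔ (x.1 ∩ y.1).card = 0 := by
      rw [Finset.disjoint_iff_inter_eq_empty, Finset.card_eq_zero]
    rw [if_neg hxy]
    simp only [h3]
    obtain ⟨k, hk⟩ : ∃ k, k = (x.1 ∩ y.1).card := ⟨_, rfl⟩
    rw [← hk] at h2 ⊢
    interval_cases k <;> norm_num [Nat.choose]

theorem J_vec (f : Tri → ℤ) (h : ∑ i, f i = 0) : JR Tri ℤ *ᵥ f = 0 := by
  funext x
  rw [Matrix.mulVec, dotProduct]
  simp only [JR_apply, one_mul]
  rw [h]
  rfl

/-- the vector equation -/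
theorem vec_eq (u g : Tri → ℤ) (r m : ℤ) (hu : ∑ i, u i = 0) (hg : ∑ i, g i = 0)
    (hA : kneser93.adjMatrix ℤ *ᵥ u = r • u + m • g) (x : Tri) :
    (r ^ 3 + 7 * r ^ 2 - 34 * r - 40) * u x + m * ((r ^ 2 + 7 * r - 30) * g x +
      (r + 10) * (kneser93.adjMatrix ℤ *ᵥ g) x + 6 * (NN *ᵥ g) x) = 0 := by
  have hR := (rel_int kneser93 rfl).cub
  obtain ⟨A, hAA⟩ : ∃ A : Matrix Tri Tri ℤ, A = kneser93.adjMatrix ℤ := ⟨_, rfl⟩
  have hsq := A_sq
  rw [← hAA] at hR hsq hA ⊢
  obtain ⟨a, ha⟩ : ∃ a, a = A *ᵥ g := ⟨_, rfl⟩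
  have e1 : A *ᵥ (A *ᵥ u) = r • (r • u + m • g) + m • a := by
    rw [hA, Matrix.mulVec_add, Matrix.mulVec_smul, Matrix.mulVec_smul, hA, ha]
  have e2 : A *ᵥ a = (4 : ℤ) • g + (3 : ℤ) • a + (6 : ℤ) • (NN *ᵥ g) := by
    rw [ha, Matrix.mulVec_mulVec, hsq]
    simp only [Matrix.add_mulVec, Matrix.sub_mulVec, Matrix.smul_mulVec, Matrix.one_mulVec]
    rw [J_vec g hg]
    module
  have e3 : A *ᵥ (A *ᵥ (A *ᵥ u)) = r • (r • (r • u + m • g) + m • a) +
      m • ((4 : ℤ) • g + (3 : ℤ) • a + (6 : ℤ) • (NN *ᵥ g)) := by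
    rw [e1, Matrix.mulVec_add, Matrix.mulVec_smul, Matrix.mulVec_smul, e2, Matrix.mulVec_add,
      Matrix.mulVec_smul, Matrix.mulVec_smul, hA, ← ha]
  have h1 := congrArg (fun M => M *ᵥ u) hR
  simp only [Matrix.add_mulVec, Matrix.sub_mulVec, Matrix.smul_mulVec, Matrix.one_mulVec] at h1
  rw [J_vec u hu, ← Matrix.mulVec_mulVec, ← Matrix.mulVec_mulVec, ← Matrix.mulVec_mulVec, e3, e1, hA] at h1
  have h2 := congrFun h1 x
  simp only [Pi.add_apply, Pi.sub_apply, Pi.smul_apply, smul_eq_mul, Pi.zero_apply, mul_zero] at h2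
  rw [← ha]
  linarith

theorem sub_card (S : Finset Tri) (F : Finset (Fin 9)) (h : ∀ x ∈ S, x.1 ⊆ F) :
    S.card ≤ F.card.choose 3 := by
  rw [← Pool.Agent.helper3.K93.cnt]
  refine Finset.card_le_card fun x hx => ?_
  simp only [Finset.mem_filter, Finset.mem_univ, true_and]
  exact h x hx

theorem NN_ind (S : Finset Tri) (v : Tri) : (NN *ᵥ ind S) v = ((∑ x ∈ S, (v.1 ∩ x.1).card : ℕ) : ℤ) := by
  rw [Matrix.mulVec, dotProduct]
  unfold ind
  simp only [mul_ite, mul_one, mul_zero, NN, Matrix.of_apply]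
  rw [Finset.sum_ite_mem, Finset.univ_inter]
  push_cast
  rfl

theorem nb_kn (S : Finset Tri) (v : Tri) :
    nb kneser93 S v = (S.filter fun y => Disjoint v.1 y.1).card := by
  unfold nb
  refine congrArg Finset.card (Finset.ext fun y => ?_)
  exact ⟨fun h => Finset.mem_filter.2 ((@Finset.mem_filter _ _ (_) _ _).1 h),
    fun h => (@Finset.mem_filter _ _ (_) _ _).2 (Finset.mem_filter.1 h)⟩

theorem no_special (C D : Finset Tri) (h : IsPair kneser93 C D) (h6 : 6 ∣ C.card) (hpos : 0 < C.card)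
    (v : Tri) (hv : v ∈ T1 kneser93 C D) : False := by
  classical
  obtain ⟨r, hC, hD⟩ := h.reg
  have hAu := pair_Au kneser93 C D h r hC hD
  have hcard := h.card
  obtain ⟨m, hm⟩ : ∃ m : ℕ, m = C.card := ⟨_, rfl⟩
  rw [← hm] at hAu h6 hpos hcard
  obtain ⟨S, hS⟩ : ∃ S, S = T1 kneser93 C D := ⟨_, rfl⟩
  obtain ⟨T, hT⟩ : ∃ T, T = T1 kneser93 D C := ⟨_, rfl⟩
  rw [← hS, ← hT] at hAu
  rw [← hS] at hv
  have hST : Disjoint S T := by
    rw [Finset.disjoint_left]
    intro x hx hx'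
    rw [hS, mem_T1] at hx
    rw [hT, mem_T1] at hx'
    have e1 := hx.2.2.1
    have e2 := hx'.2.2.2
    omega
  have hu0 : ∑ i, uu C D i = 0 := by
    unfold uu
    simp only [Pi.sub_apply, Finset.sum_sub_distrib, sum_ind]
    rw [← hcard, hm]
    ring
  have hg0 : ∑ i, uu S T i = 0 := by
    have h1 : (JR Tri ℤ * kneser93.adjMatrix ℤ) *ᵥ uu C D = (20 : ℤ) • (JR Tri ℤ *ᵥ uu C D) := by
      rw [JA kneser93 ℤ (rel_int kneser93 rfl), Matrix.smul_mulVec]
    rw [← Matrix.mulVec_mulVec, hAu, Matrix.mulVec_add, Matrix.mulVec_smul, Matrix.mulVec_smul,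
      J_vec _ hu0, smul_zero, smul_zero, zero_add] at h1
    have h2 := congrFun h1 v
    simp only [Pi.smul_apply, smul_eq_mul, Pi.zero_apply, Matrix.mulVec, dotProduct, JR_apply,
      one_mul] at h2
    rcases mul_eq_zero.1 h2 with h3 | h3
    · exfalso
      have : (m : ℤ) = 0 := h3
      omega
    · exact h3
  have hST' : S.card = T.card := by
    have h1 := hg0
    unfold uu at h1
    simp only [Pi.sub_apply, Finset.sum_sub_distrib, sum_ind] at h1
    omega
  have hve := vec_eq _ _ r m hu0 hg0 hAu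
  -- not divisible by 3
  have hCne : C.Nonempty := by
    rw [← Finset.card_pos, ← hm]
    exact hpos
  obtain ⟨x, hx⟩ := hCne
  have hxD : x ∉ D := Finset.disjoint_left.1 h.disj hx
  have hr3 : ¬ (3 : ℤ) ∣ r := by
    rintro ⟨s, hs⟩
    obtain ⟨n, hn⟩ := h6
    have h1 := hve x
    have h2 : uu C D x = 1 := by
      unfold uu
      rw [Pi.sub_apply, ind_mem hx, ind_not hxD]
      ring
    rw [h2, hs, hn] at h1
    push_cast at h1
    obtain ⟨z, hz⟩ : ∃ z : ℤ, z = (((3 * s) ^ 2 + 7 * (3 * s) - 30) * uu S T x +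
      (3 * s + 10) * (kneser93.adjMatrix ℤ *ᵥ uu S T) x + 6 * (NN *ᵥ uu S T) x) := ⟨_, rfl⟩
    rw [← hz] at h1
    have h3 : 3 * (9 * s ^ 3 + 21 * s ^ 2 - 34 * s + 2 * (n : ℤ) * z) = 40 := by linarith
    omega
  -- the union of the special triples
  obtain ⟨U, hU⟩ : ∃ U : Finset (Fin 9), U = S.biUnion fun y => y.1 := ⟨_, rfl⟩
  have hSU : ∀ y ∈ S, y.1 ⊆ U := by
    intro y hy
    rw [hU]
    exact Finset.subset_biUnion_of_mem (fun y : Tri => y.1) hy
  have hCS : ∀ y ∈ C, ∀ z ∈ S, Disjoint z.1 y.1 := by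
    intro y hy z hz
    rw [hS, mem_T1] at hz
    exact nb_full hz.2.2.1 y hy
  have hCU : ∀ y ∈ C, y.1 ⊆ Uᶜ := by
    intro y hy
    rw [Finset.subset_compl_iff_disjoint_right, hU, Finset.disjoint_biUnion_right]
    intro z hz
    exact (hCS y hy z hz).symm
  have hm1 : m ≤ (9 - U.card).choose 3 := by
    have h1 := sub_card C _ hCU
    rwa [Finset.card_compl, Fintype.card_fin, ← hm] at h1
  have hm6 : 6 ≤ m := Nat.le_of_dvd hpos h6
  have hU4 : U.card ≤ 4 := by
    by_contra hlt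
    have h1 : 9 - U.card ≤ 4 := by omega
    have h2 := Nat.choose_le_choose 3 h1
    have h3 : Nat.choose 4 3 = 4 := by decide
    omega
  have ht1 : S.card ≤ U.card.choose 3 := sub_card S U hSU
  have ht4 : S.card ≤ 4 := by
    have h2 := Nat.choose_le_choose 3 hU4
    have h3 : Nat.choose 4 3 = 4 := by decide
    omega
  have hv3 : v.1 ⊆ U := hSU v hv
  have hUv : 3 ≤ U.card := by
    rw [← v.2]
    exact Finset.card_le_card hv3
  have hinter : ∀ y ∈ S, 2 ≤ (v.1 ∩ y.1).card := by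
    intro y hy
    have h1 := Finset.card_union_add_card_inter v.1 y.1
    rw [v.2, y.2] at h1
    have h2 : (v.1 ∪ y.1).card ≤ 4 := (Finset.card_le_card (Finset.union_subset hv3 (hSU y hy))).trans hU4
    omega
  have hG1 : ∑ y ∈ S, (v.1 ∩ y.1).card = 2 * S.card + 1 := by
    have h1 : ∀ y ∈ S, (v.1 ∩ y.1).card = 2 + if y = v then 1 else 0 := by
      intro y hy
      by_cases hyv : y = v
      · rw [hyv, Finset.inter_self, v.2, if_pos rfl]
      · rw [if_neg hyv]
        have h2 := hinter y hy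
        have h3 := inter_le v y (Ne.symm hyv)
        omega
    rw [Finset.sum_congr rfl h1, Finset.sum_add_distrib, Finset.sum_ite_eq' S v, if_pos hv]
    simp only [Finset.sum_const, smul_eq_mul]
    ring
  have hvT : v ∉ T := Finset.disjoint_left.1 hST hv
  obtain ⟨b, hb⟩ : ∃ b : ℕ, b = nb kneser93 T v := ⟨_, rfl⟩
  have hnb : nb kneser93 T v = (T.filter fun y => Disjoint v.1 y.1).card := nb_kn T v
  have hsplit : (T.filter fun y => Disjoint v.1 y.1).card + (T.filter fun y => ¬ Disjoint v.1 y.1).card = T.card :=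
    Finset.card_filter_add_card_filter_not _
  have hG2 : ∑ y ∈ T, (v.1 ∩ y.1).card = ∑ y ∈ T.filter (fun y => ¬ Disjoint v.1 y.1), (v.1 ∩ y.1).card := by
    rw [Finset.sum_filter]
    refine Finset.sum_congr rfl fun y _ => ?_
    by_cases hd : Disjoint v.1 y.1
    · rw [if_neg (by simpa using hd), Finset.disjoint_iff_inter_eq_empty.1 hd, Finset.card_empty]
    · rw [if_pos hd]
  obtain ⟨Z, hZ⟩ : ∃ Z, Z = T.filter (fun y => ¬ Disjoint v.1 y.1) := ⟨_, rfl⟩
  rw [← hZ] at hG2 hsplit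
  have hZ1 : ∀ y ∈ Z, 1 ≤ (v.1 ∩ y.1).card ∧ (v.1 ∩ y.1).card ≤ 2 := by
    intro y hy
    rw [hZ, Finset.mem_filter] at hy
    constructor
    · rw [Nat.one_le_iff_ne_zero]
      intro h0
      exact hy.2 (Finset.disjoint_iff_inter_eq_empty.2 (Finset.card_eq_zero.1 h0))
    · exact inter_le v y fun h' => hvT (h' ▸ hy.1)
  have hlo : Z.card ≤ ∑ y ∈ Z, (v.1 ∩ y.1).card := by
    have := Finset.card_nsmul_le_sum Z (fun y => (v.1 ∩ y.1).card) 1 fun y hy => (hZ1 y hy).1
    simpa using this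
  have hhi : ∑ y ∈ Z, (v.1 ∩ y.1).card ≤ 2 * Z.card := by
    have := Finset.sum_le_card_nsmul Z (fun y => (v.1 ∩ y.1).card) 2 fun y hy => (hZ1 y hy).2
    rw [smul_eq_mul] at this
    omega
  -- the neighbours of `v` among the special vertices
  have hnS : nb kneser93 S v = 0 := by
    rw [nb_kn, Finset.card_eq_zero, Finset.filter_eq_empty_iff]
    intro y hy hadj
    have h1 := hinter y hy
    rw [Finset.disjoint_iff_inter_eq_empty] at hadj
    rw [hadj, Finset.card_empty] at h1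
    omega
  have hav : (kneser93.adjMatrix ℤ *ᵥ uu S T) v = -(b : ℤ) := by
    unfold uu
    rw [Matrix.mulVec_sub, Pi.sub_apply, adj_ind, adj_ind]
    show ((nb kneser93 S v : ℕ) : ℤ) - ((nb kneser93 T v : ℕ) : ℤ) = -(b : ℤ)
    rw [hnS, hb]
    push_cast
    ring
  obtain ⟨g2, hg2⟩ : ∃ g2 : ℕ, g2 = ∑ y ∈ T, (v.1 ∩ y.1).card := ⟨_, rfl⟩
  have hNv : (NN *ᵥ uu S T) v = 2 * (S.card : ℤ) + 1 - g2 := by
    unfold uu
    rw [Matrix.mulVec_sub, Pi.sub_apply, NN_ind, NN_ind, hG1, hg2]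
    push_cast
    ring
  have hvC : v ∉ C := by
    rw [hS, mem_T1] at hv
    exact hv.1
  have hvD : v ∉ D := by
    rw [hS, mem_T1] at hv
    exact hv.2.1
  have hmain : 6 * (2 * (S.card : ℤ) + 1 - g2) = (r + 10) * (3 - r + b) := by
    have h1 := hve v
    have h2 : uu C D v = 0 := uu_zero (by tauto)
    have h3 : uu S T v = 1 := by
      unfold uu
      rw [Pi.sub_apply, ind_mem hv, ind_not hvT]
      ring
    rw [h2, h3, hav, hNv, mul_zero, zero_add] at h1
    rcases mul_eq_zero.1 h1 with h4 | h4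
    · exfalso
      have : (m : ℤ) = 0 := h4
      omega
    · linarith
  -- bounds for `r`
  have hr1 : r ≤ 1 := by
    have h1 := hC x hx
    have h2 : nb kneser93 C x ≤ 1 := by
      have h3 : (C.filter fun y => Disjoint x.1 y.1).card ≤ ((x.1 ∪ v.1)ᶜ).card.choose 3 := by
        apply sub_card
        intro y hy
        rw [Finset.mem_filter] at hy
        rw [Finset.subset_compl_iff_disjoint_right, Finset.disjoint_union_right]
        exact ⟨hy.2.symm, (hCS y hy.1 v hv).symm⟩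
      have h4 : (x.1 ∩ v.1).card = 0 := by
        rw [Finset.card_eq_zero, ← Finset.disjoint_iff_inter_eq_empty]
        exact (hCS x hx v hv).symm
      rw [card_compl_union, h4] at h3
      have h5 : nb kneser93 C x = (C.filter fun y => Disjoint x.1 y.1).card := nb_kn C x
      rw [h5]
      simpa using h3
    omega
  have hr6 : 2 ≤ S.card → -6 ≤ r := by
    intro ht
    have h1 : U.card = 4 := by
      by_contra hne
      have h2 : U.card = 3 := by omega
      rw [h2] at ht1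
      have h3 : Nat.choose 3 3 = 1 := by decide
      omega
    rw [h1] at hm1
    have h3 : Nat.choose (9 - 4) 3 = 10 := by decide
    have h4 : m = 6 := by
      obtain ⟨n, hn⟩ := h6
      omega
    have h5 := hC x hx
    have h6' : nb kneser93 D x ≤ D.card := by
      rw [nb_kn]
      exact Finset.card_filter_le _ _
    omega
  have hS1 : 1 ≤ S.card := Finset.card_pos.2 ⟨v, hv⟩
  have hr9 : -9 ≤ r := by
    by_contra hlt
    have h1 : S.card = 1 := by
      by_contra hne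
      have := hr6 (by omega)
      omega
    have h2 : (0 : ℤ) < 6 * (2 * (S.card : ℤ) + 1 - g2) := by omega
    have h3 : (r + 10) * (3 - r + b) ≤ 0 := mul_nonpos_of_nonpos_of_nonneg (by omega) (by omega)
    omega
  obtain ⟨t, ht⟩ : ∃ t, t = S.card := ⟨_, rfl⟩
  rw [← ht] at hmain hr6 hS1 ht4 hST'
  rw [hnb] at hb
  rw [← hg2] at hG2
  clear hve hAu hu0 hg0 hC hD hnS hav hNv hG1 hinter hSU hCS hCU hnb
  have hr' : r = -9 ∨ r = -8 ∨ r = -7 ∨ r = -6 ∨ r = -5 ∨ r = -4 ∨ r = -3 ∨ r = -2 ∨ r = -1 ∨ r = 0 ∨ r = 1 := by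
    omega
  rcases hr' with h' | h' | h' | h' | h' | h' | h' | h' | h' | h' | h' <;> subst h' <;> omega

end Pool.Agent.helper13.K93W
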