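import Pool.Agent.helper20.K93.GM

/-!
Wang-Qiu-Hu switching with respect to a pair of sets of vertices: definitions.
-/

set_option autoImplicit false

namespace Pool.Agent.helper13.K93W

open Classical in
/-- the number of neighbours of `v` in `S` -/
noncomputable def nb {V : Type*} (G : SimpleGraph V) (S : Finset V) (v : V) : ℕ :=
  (S.filter (fun w => G.Adj v w)).card

/-- `v` is outside `C` and `D`, adjacent to all vertices of one of the two sets and to none of the
other. -/
def Special {V : Type*} (G : SimpleGraph V) (C D : Finset V) (v : V) : Prop :=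
  v ∉ C ∧ v ∉ D ∧ (nb G C v = C.card ∧ nb G D v = 0 ∨ nb G C v = 0 ∧ nb G D v = D.card)

/-- The conditions on the pair `C`, `D`: disjoint, of the same size; for some integer `r` every
vertex of `C` has `r` more neighbours in `C` than in `D`, and every vertex of `D` has `r` more
neighbours in `D` than in `C`; every vertex outside has as many neighbours in `C` as in `D`, or it
is special. -/
structure IsPair {V : Type*} (G : SimpleGraph V) (C D : Finset V) : Prop where
  disj : Disjoint C D
  card : C.card = D.card
  reg : ∃ r : ℤ, (∀ v ∈ C, (nb G C v : ℤ) - nb G D v = r) ∧ ∀ v ∈ D, (nb G D v : ℤ) - nb G C v = r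
  out : ∀ v, v ∉ C → v ∉ D → nb G C v = nb G D v ∨ Special G C D v

/-- `H` arises from `G` by Wang-Qiu-Hu switching with respect to the pair `C`, `D`: for every
special vertex its neighbours and its non-neighbours in `C ∪ D` are exchanged. -/
structure PairSwitch {V : Type*} (G H : SimpleGraph V) (C D : Finset V) : Prop where
  pair : IsPair G C D
  same : ∀ v w, ¬ (Special G C D v ∧ (w ∈ C ∨ w ∈ D)) → ¬ (Special G C D w ∧ (v ∈ C ∨ v ∈ D)) →
    (H.Adj v w ↔ G.Adj v w)
  flip : ∀ v w, Special G C D v → (w ∈ C ∨ w ∈ D) → (H.Adj v w ↔ ¬ G.Adj v w)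

/-- `H` arises from `G` by Wang-Qiu-Hu switching with respect to some pair of sets of vertices. -/
def PairAny {V : Type*} (G H : SimpleGraph V) : Prop :=
  ∃ C D : Finset V, PairSwitch G H C D

end Pool.Agent.helper13.K93W
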