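import Pool.Agent.helper13.K93W.Core

/-!
Chains of switchings starting at `K(9,3)`.
-/

set_option autoImplicit false

open Matrix Finset

namespace Pool.Agent.helper13.K93W

open Pool.Agent.helper3.K93 Pool.Agent.helper98.K93R Pool.Agent.helper20.K93

section fin

variable {V : Type*}

theorem Special.symm {G : SimpleGraph V} {C D : Finset V} {v : V} (h : Special G C D v) :
    Special G D C v :=
  ⟨h.2.1, h.1, by
    rcases h.2.2 with h' | h'
    · exact Or.inr ⟨h'.2, h'.1⟩
    · exact Or.inl ⟨h'.2, h'.1⟩⟩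

theorem IsPair.symm {G : SimpleGraph V} {C D : Finset V} (h : IsPair G C D) : IsPair G D C := by
  obtain ⟨r, h1, h2⟩ := h.reg
  refine ⟨h.disj.symm, h.card.symm, ⟨r, h2, h1⟩, fun v hD hC => ?_⟩
  rcases h.out v hC hD with h' | h'
  · exact Or.inl h'.symm
  · exact Or.inr h'.symm

theorem nb_map (G : SimpleGraph V) (e : G ≃g kneser93) (S : Finset V) (v : V) :
    nb kneser93 (S.map e.toEquiv.toEmbedding) (e v) = nb G S v := by
  classical
  rw [nb_kn, Finset.filter_map, Finset.card_map]
  unfold nb
  refine congrArg Finset.card (Finset.ext fun w => ?_)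
  have h1 : kneser93.Adj (e v) (e w) ↔ G.Adj v w := e.map_rel_iff
  constructor
  · intro h
    rw [Finset.mem_filter] at h
    exact (@Finset.mem_filter _ _ (_) _ _).2 ⟨h.1, h1.1 h.2⟩
  · intro h
    have h2 := (@Finset.mem_filter _ _ (_) _ _).1 h
    exact Finset.mem_filter.2 ⟨h2.1, h1.2 h2.2⟩

theorem mem_map' (G : SimpleGraph V) (e : G ≃g kneser93) (S : Finset V) (v : V) :
    e v ∈ S.map e.toEquiv.toEmbedding ↔ v ∈ S := by
  rw [Finset.mem_map]
  constructor
  · rintro ⟨w, hw, hwv⟩
    have : w = v := e.injective hwv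
    rw [← this]
    exact hw
  · intro h
    exact ⟨v, h, rfl⟩

theorem special_map (G : SimpleGraph V) (e : G ≃g kneser93) (C D : Finset V) (v : V)
    (h : Special G C D v) :
    Special kneser93 (C.map e.toEquiv.toEmbedding) (D.map e.toEquiv.toEmbedding) (e v) := by
  unfold Special
  rw [mem_map', mem_map', nb_map, nb_map, Finset.card_map, Finset.card_map]
  exact h

theorem pair_map (G : SimpleGraph V) (e : G ≃g kneser93) (C D : Finset V) (h : IsPair G C D) :
    IsPair kneser93 (C.map e.toEquiv.toEmbedding) (D.map e.toEquiv.toEmbedding) := by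
  obtain ⟨r, h1, h2⟩ := h.reg
  have hsurj : ∀ x, ∃ v, e v = x := fun x => e.surjective x
  refine ⟨(Finset.disjoint_map _).2 h.disj, by rw [Finset.card_map, Finset.card_map, h.card],
    ⟨r, ?_, ?_⟩, ?_⟩
  · intro x hx
    obtain ⟨v, rfl⟩ := hsurj x
    rw [nb_map, nb_map]
    exact h1 v ((mem_map' G e C v).1 hx)
  · intro x hx
    obtain ⟨v, rfl⟩ := hsurj x
    rw [nb_map, nb_map]
    exact h2 v ((mem_map' G e D v).1 hx)
  · intro x hxC hxD
    obtain ⟨v, rfl⟩ := hsurj x
    rw [mem_map'] at hxC hxD
    rcases h.out v hxC hxD with h' | h'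
    · left
      rw [nb_map, nb_map, h']
    · right
      exact special_map G e C D v h'

theorem no_special' (G : SimpleGraph V) (e : G ≃g kneser93) (C D : Finset V) (h : IsPair G C D)
    (h6 : 6 ∣ C.card) (hpos : 0 < C.card) (v : V) : ¬ Special G C D v := by
  intro hv
  have h1 := pair_map G e C D h
  have h2 := special_map G e C D v hv
  rcases special_iff.1 h2 with h3 | h3
  · exact no_special _ _ h1 (by rwa [Finset.card_map]) (by rwa [Finset.card_map]) _ h3
  · exact no_special _ _ h1.symm (by rw [Finset.card_map, ← h.card]; exact h6)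
      (by rw [Finset.card_map, ← h.card]; exact hpos) _ h3

variable [Fintype V] [DecidableEq V]

theorem pair_iso (G H : SimpleGraph V) (hGH : PairAny G H) (hG : Nonempty (G ≃g kneser93)) :
    Nonempty (H ≃g kneser93) := by
  obtain ⟨C, D, hCD⟩ := hGH
  by_cases h6 : 6 ∣ C.card
  · have hno : ∀ v w, ¬ (Special G C D v ∧ (w ∈ C ∨ w ∈ D)) := by
      rintro v w ⟨hv, hw⟩
      have hpos : 0 < C.card := by
        rcases hw with hw | hw
        · exact Finset.card_pos.2 ⟨w, hw⟩
        · rw [hCD.pair.card]
          exact Finset.card_pos.2 ⟨w, hw⟩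
      obtain ⟨e⟩ := hG
      exact no_special' G e C D hCD.pair h6 hpos v hv
    have heq : H = G := by
      ext v w
      exact hCD.same v w (hno v w) (hno w v)
    rw [heq]
    exact hG
  · exact sim_iso G H (pair_sim G H C D hCD h6) hG

/-- Chains of switchings and similarities never leave `K(9,3)`. -/
theorem chain (K G : SimpleGraph V) (hK : Nonempty (K ≃g kneser93))
    (h : Relation.ReflTransGen (fun X Y => PairAny X Y ∨ GMany X Y ∨ Sim X Y) K G) :
    Nonempty (G ≃g kneser93) := by
  induction h with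
  | refl => exact hK
  | tail _ h2 ih =>
    rcases h2 with h2 | h2 | h2
    · exact pair_iso _ _ h2 ih
    · exact gm_iso _ _ h2 ih
    · exact sim_iso _ _ h2 ih

end fin

end Pool.Agent.helper13.K93W
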