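import Pool.Agent.helper13.K93W.Def

/-!
Wang-Qiu-Hu switching with respect to a pair of sets of vertices, as a rational similarity.
-/

set_option autoImplicit false

open Matrix Finset

namespace Pool.Agent.helper13.K93W

open Pool.Agent.helper3.K93 Pool.Agent.helper98.K93R Pool.Agent.helper20.K93

section vec

variable {V : Type*} [Fintype V] [DecidableEq V]

/-- the indicator of a set -/
def ind (S : Finset V) : V → ℤ := fun i => if i ∈ S then 1 else 0

omit [Fintype V] in
theorem ind_mem {S : Finset V} {i : V} (h : i ∈ S) : ind S i = 1 := if_pos h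

omit [Fintype V] in
theorem ind_not {S : Finset V} {i : V} (h : i ∉ S) : ind S i = 0 := if_neg h

theorem adj_ind (G : SimpleGraph V) [DecidableRel G.Adj] (S : Finset V) :
    G.adjMatrix ℤ *ᵥ ind S = fun v => (nb G S v : ℤ) := by
  classical
  funext v
  rw [Matrix.mulVec, dotProduct]
  unfold ind nb
  simp only [SimpleGraph.adjMatrix_apply, mul_ite, mul_one, mul_zero]
  have : ∀ x : V, (if x ∈ S then (if G.Adj v x then (1 : ℤ) else 0) else 0) =
      if x ∈ S ∧ G.Adj v x then 1 else 0 := by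
    intro x
    split_ifs <;> simp_all
  simp only [this, Finset.sum_boole]
  congr 2
  ext x
  simp

theorem sum_ind (S : Finset V) : ∑ i, ind S i = (S.card : ℤ) := by
  unfold ind
  simp only [Finset.sum_boole]
  rw [Finset.filter_univ_mem]

theorem ind_dot (S T : Finset V) : ind S ⬝ᵥ ind T = ((S ∩ T).card : ℤ) := by
  rw [← sum_ind, dotProduct]
  refine Finset.sum_congr rfl fun i _ => ?_
  unfold ind
  by_cases h1 : i ∈ S <;> by_cases h2 : i ∈ T <;> simp [h1, h2]

open Classical in
/-- the special vertices adjacent to `C` -/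
noncomputable def T1 (G : SimpleGraph V) (C D : Finset V) : Finset V :=
  Finset.univ.filter fun v => v ∉ C ∧ v ∉ D ∧ nb G C v = C.card ∧ nb G D v = 0

theorem mem_T1 {G : SimpleGraph V} {C D : Finset V} {v : V} :
    v ∈ T1 G C D ↔ v ∉ C ∧ v ∉ D ∧ nb G C v = C.card ∧ nb G D v = 0 := by
  classical
  unfold T1
  simp

theorem special_iff {G : SimpleGraph V} {C D : Finset V} {v : V} :
    Special G C D v ↔ v ∈ T1 G C D ∨ v ∈ T1 G D C := by
  rw [mem_T1, mem_T1]
  unfold Special
  tauto

/-- the vector of the pair -/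
def uu (C D : Finset V) : V → ℤ := ind C - ind D

theorem pair_Au (G : SimpleGraph V) [DecidableRel G.Adj] (C D : Finset V) (h : IsPair G C D) (r : ℤ)
    (hC : ∀ v ∈ C, (nb G C v : ℤ) - nb G D v = r) (hD : ∀ v ∈ D, (nb G D v : ℤ) - nb G C v = r) :
    G.adjMatrix ℤ *ᵥ uu C D = r • uu C D + (C.card : ℤ) • uu (T1 G C D) (T1 G D C) := by
  unfold uu
  rw [Matrix.mulVec_sub, adj_ind, adj_ind]
  funext v
  simp only [Pi.sub_apply, Pi.add_apply, Pi.smul_apply, smul_eq_mul]
  have hcard := h.card
  by_cases h1 : v ∈ C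
  · have h2 : v ∉ D := Finset.disjoint_left.1 h.disj h1
    have h3 : v ∉ T1 G C D := fun h' => (mem_T1.1 h').1 h1
    have h4 : v ∉ T1 G D C := fun h' => (mem_T1.1 h').2.1 h1
    rw [ind_mem h1, ind_not h2, ind_not h3, ind_not h4, hC v h1]
    ring
  · by_cases h2 : v ∈ D
    · have h3 : v ∉ T1 G C D := fun h' => (mem_T1.1 h').2.1 h2
      have h4 : v ∉ T1 G D C := fun h' => (mem_T1.1 h').1 h2
      rw [ind_not h1, ind_mem h2, ind_not h3, ind_not h4]
      have := hD v h2
      linarith
    · rw [ind_not h1, ind_not h2]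
      by_cases h3 : v ∈ T1 G C D <;> by_cases h4 : v ∈ T1 G D C
      · rw [ind_mem h3, ind_mem h4]
        have e1 := mem_T1.1 h3
        have e2 := mem_T1.1 h4
        have e3 : nb G C v = 0 := e2.2.2.2
        have e4 : nb G D v = 0 := e1.2.2.2
        rw [e3, e4]
        ring
      · rw [ind_mem h3, ind_not h4]
        have e1 := mem_T1.1 h3
        rw [e1.2.2.1, e1.2.2.2]
        push_cast
        ring
      · rw [ind_not h3, ind_mem h4]
        have e1 := mem_T1.1 h4
        rw [e1.2.2.1, e1.2.2.2, hcard]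
        push_cast
        ring
      · rw [ind_not h3, ind_not h4]
        have e1 : nb G C v = nb G D v := by
          rcases h.out v h1 h2 with h' | h'
          · exact h'
          · exact absurd (special_iff.1 h') (by tauto)
        rw [e1]
        ring

omit [Fintype V] [DecidableEq V] in
theorem nb_full {G : SimpleGraph V} {S : Finset V} {v : V} (h : nb G S v = S.card) :
    ∀ w ∈ S, G.Adj v w := by
  classical
  intro w hw
  unfold nb at h
  have := Finset.card_filter_eq_iff.1 h
  exact this w hw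

omit [Fintype V] [DecidableEq V] in
theorem nb_zero {G : SimpleGraph V} {S : Finset V} {v : V} (h : nb G S v = 0) :
    ∀ w ∈ S, ¬ G.Adj v w := by
  classical
  intro w hw
  unfold nb at h
  have := Finset.filter_eq_empty_iff.1 (Finset.card_eq_zero.1 h)
  exact this hw

/-- the entries of the switched matrix, one direction -/
theorem H_flip (G H : SimpleGraph V) [DecidableRel G.Adj] [DecidableRel H.Adj] (C D : Finset V)
    (h : PairSwitch G H C D) (v w : V) (hv : Special G C D v) (hw : w ∈ C ∨ w ∈ D) :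
    H.adjMatrix ℤ v w = G.adjMatrix ℤ v w - uu (T1 G C D) (T1 G D C) v * uu C D w := by
  have hf := h.flip v w hv hw
  have hdis := h.pair.disj
  have hcard := h.pair.card
  have hpos : C.card ≠ 0 := by
    rcases hw with hw | hw
    · exact fun h0 => by rw [Finset.card_eq_zero.1 h0] at hw; exact absurd hw (Finset.notMem_empty _)
    · rw [hcard]
      exact fun h0 => by rw [Finset.card_eq_zero.1 h0] at hw; exact absurd hw (Finset.notMem_empty _)
  simp only [SimpleGraph.adjMatrix_apply, hf]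
  unfold uu
  simp only [Pi.sub_apply]
  rcases special_iff.1 hv with hv1 | hv1
  · have e1 := mem_T1.1 hv1
    have hv2 : v ∉ T1 G D C := fun h' => hpos (by rw [← e1.2.2.1]; exact (mem_T1.1 h').2.2.2)
    rw [ind_mem hv1, ind_not hv2]
    rcases hw with hw | hw
    · rw [ind_mem hw, ind_not (Finset.disjoint_left.1 hdis hw)]
      have := nb_full e1.2.2.1 w hw
      simp [this]
    · rw [ind_mem hw, ind_not (Finset.disjoint_right.1 hdis hw)]
      have := nb_zero e1.2.2.2 w hw
      simp [this]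
  · have e1 := mem_T1.1 hv1
    have hv2 : v ∉ T1 G C D := fun h' => hpos (by rw [hcard, ← e1.2.2.1]; exact (mem_T1.1 h').2.2.2)
    rw [ind_mem hv1, ind_not hv2]
    rcases hw with hw | hw
    · rw [ind_mem hw, ind_not (Finset.disjoint_left.1 hdis hw)]
      have := nb_zero e1.2.2.2 w hw
      simp [this]
    · rw [ind_mem hw, ind_not (Finset.disjoint_right.1 hdis hw)]
      have := nb_full e1.2.2.1 w hw
      simp [this]

theorem uu_zero {C D : Finset V} {w : V} (h : ¬ (w ∈ C ∨ w ∈ D)) : uu C D w = 0 := by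
  unfold uu
  rw [Pi.sub_apply, ind_not (fun h' => h (Or.inl h')), ind_not (fun h' => h (Or.inr h'))]
  ring

theorem H_entry (G H : SimpleGraph V) [DecidableRel G.Adj] [DecidableRel H.Adj] (C D : Finset V)
    (h : PairSwitch G H C D) (v w : V) :
    H.adjMatrix ℤ v w = G.adjMatrix ℤ v w - uu (T1 G C D) (T1 G D C) v * uu C D w -
      uu C D v * uu (T1 G C D) (T1 G D C) w := by
  have hs : ∀ v, Special G C D v → ¬ (v ∈ C ∨ v ∈ D) := fun v hv h' => by
    rcases h' with h' | h'
    · exact hv.1 h'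
    · exact hv.2.1 h'
  by_cases h1 : Special G C D v ∧ (w ∈ C ∨ w ∈ D)
  · rw [H_flip G H C D h v w h1.1 h1.2, uu_zero (hs v h1.1)]
    ring
  · by_cases h2 : Special G C D w ∧ (v ∈ C ∨ v ∈ D)
    · have h3 := H_flip G H C D h w v h2.1 h2.2
      have e1 : H.adjMatrix ℤ v w = H.adjMatrix ℤ w v := by
        simp only [SimpleGraph.adjMatrix_apply, H.adj_comm]
      have e2 : G.adjMatrix ℤ v w = G.adjMatrix ℤ w v := by
        simp only [SimpleGraph.adjMatrix_apply, G.adj_comm]
      rw [e1, e2, h3, uu_zero (hs w h2.1)]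
      ring
    · have h3 := h.same v w h1 h2
      have z1 : uu (T1 G C D) (T1 G D C) v * uu C D w = 0 := by
        by_cases hv : Special G C D v
        · rw [uu_zero (C := C) (fun h' => h1 ⟨hv, h'⟩), mul_zero]
        · rw [uu_zero (fun h' => hv (special_iff.2 h')), zero_mul]
      have z2 : uu C D v * uu (T1 G C D) (T1 G D C) w = 0 := by
        by_cases hw : Special G C D w
        · rw [uu_zero (C := C) (fun h' => h2 ⟨hw, h'⟩), zero_mul]
        · rw [uu_zero (fun h' => hw (special_iff.2 h')), mul_zero]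
      rw [z1, z2]
      simp only [SimpleGraph.adjMatrix_apply, h3]
      ring

theorem pair_sim (G H : SimpleGraph V) (C D : Finset V) (h : PairSwitch G H C D)
    (h6 : ¬ 6 ∣ C.card) : Sim G H := by
  classical
  obtain ⟨r, hC, hD⟩ := h.pair.reg
  have hAu := pair_Au G C D h.pair r hC hD
  obtain ⟨u, hu⟩ : ∃ u, u = uu C D := ⟨_, rfl⟩
  obtain ⟨g, hg⟩ : ∃ g, g = uu (T1 G C D) (T1 G D C) := ⟨_, rfl⟩
  obtain ⟨m, hm⟩ : ∃ m : ℤ, m = (C.card : ℤ) := ⟨_, rfl⟩
  rw [← hu, ← hg, ← hm] at hAu
  have huu : u ⬝ᵥ u = 2 * m := by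
    rw [hu]
    unfold uu
    rw [sub_dotProduct, dotProduct_sub, dotProduct_sub, ind_dot, ind_dot, ind_dot, ind_dot, Finset.inter_self,
      Finset.inter_self, Finset.disjoint_iff_inter_eq_empty.1 h.pair.disj,
      Finset.disjoint_iff_inter_eq_empty.1 h.pair.disj.symm, Finset.card_empty, ← h.pair.card, ← hm]
    push_cast
    ring
  have hug : g ⬝ᵥ u = 0 := by
    rw [dotProduct]
    refine Finset.sum_eq_zero fun i _ => ?_
    by_cases hi : i ∈ C ∨ i ∈ D
    · have : ¬ (i ∈ T1 G C D ∨ i ∈ T1 G D C) := by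
        rintro (h' | h')
        · rcases hi with hi | hi
          · exact (mem_T1.1 h').1 hi
          · exact (mem_T1.1 h').2.1 hi
        · rcases hi with hi | hi
          · exact (mem_T1.1 h').2.1 hi
          · exact (mem_T1.1 h').1 hi
      rw [hg, uu_zero this, zero_mul]
    · rw [hu, uu_zero hi, mul_zero]
  have hau : (G.adjMatrix ℤ *ᵥ u) ⬝ᵥ u = 2 * m * r := by
    rw [hAu, add_dotProduct, smul_dotProduct, smul_dotProduct, huu, hug, smul_eq_mul, smul_eq_mul]
    ring
  have hsym : u ᵥ* G.adjMatrix ℤ = G.adjMatrix ℤ *ᵥ u := by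
    rw [← Matrix.mulVec_transpose, SimpleGraph.transpose_adjMatrix]
  obtain ⟨U, hU⟩ : ∃ U : Matrix V V ℤ, U = Matrix.vecMulVec u u := ⟨_, rfl⟩
  have hUU : U * U = (2 * m) • U := by
    rw [hU, Matrix.vecMulVec_mul_vecMulVec, huu]
    ext i j
    simp only [Matrix.vecMulVec_apply, Matrix.smul_apply, Pi.smul_apply, smul_eq_mul]
    ring
  have hAU : G.adjMatrix ℤ * U = Matrix.vecMulVec (G.adjMatrix ℤ *ᵥ u) u := by
    rw [hU, Matrix.mul_vecMulVec]
  have hUA : U * G.adjMatrix ℤ = Matrix.vecMulVec u (G.adjMatrix ℤ *ᵥ u) := by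
    rw [hU, Matrix.vecMulVec_mul, hsym]
  have hUAU : U * G.adjMatrix ℤ * U = (2 * m * r) • U := by
    rw [hUA, hU, Matrix.vecMulVec_mul_vecMulVec, hau]
    ext i j
    simp only [Matrix.vecMulVec_apply, Matrix.smul_apply, Pi.smul_apply, smul_eq_mul]
    ring
  refine ⟨m, m • (1 : Matrix V V ℤ) - U, m • (1 : Matrix V V ℤ) - U, ?_, ?_, ?_⟩
  · rw [hm]
    intro h'
    exact h6 (by exact_mod_cast h')
  · rw [sub_mul, mul_sub, mul_sub, hUU]
    simp only [Matrix.smul_mul, Matrix.mul_smul, one_mul, mul_one]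
    module
  · have e1 : (m • (1 : Matrix V V ℤ) - U) * G.adjMatrix ℤ * (m • (1 : Matrix V V ℤ) - U) =
        (m ^ 2) • G.adjMatrix ℤ - m • (G.adjMatrix ℤ * U) - m • (U * G.adjMatrix ℤ) +
          U * G.adjMatrix ℤ * U := by
      rw [sub_mul, mul_sub, sub_mul, sub_mul]
      simp only [Matrix.smul_mul, Matrix.mul_smul, one_mul, mul_one]
      module
    have e1' : (m • (1 : Matrix V V ℤ) - U) * SimpleGraph.adjMatrix ℤ G *
        (m • (1 : Matrix V V ℤ) - U) = (m ^ 2) • G.adjMatrix ℤ - m • (G.adjMatrix ℤ * U) -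
          m • (U * G.adjMatrix ℤ) + U * G.adjMatrix ℤ * U := e1
    rw [e1', hUAU, hAU, hUA, hAu, hU]
    ext i j
    have e2 := H_entry G H C D h i j
    rw [← hu, ← hg] at e2
    simp only [Matrix.add_apply, Matrix.sub_apply, Matrix.smul_apply, Matrix.vecMulVec_apply,
      Pi.add_apply, Pi.smul_apply, smul_eq_mul]
    rw [e2]
    ring

end vec

end Pool.Agent.helper13.K93W
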